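import Pool.Agent.G02.Stmts

/-!
# Squad G02, row LA: local lemma
-/

set_option autoImplicit false

namespace Pool.Agent.G02.H65

theorem la : LaStmt := by
  intro a b d M e N B h l hlF hl2 hd hab
  have hl : Prime (l : ℤ) := Nat.prime_iff_prime_int.1 Fact.out
  have hcd : IsCoprime (l : ℤ) d := (Prime.coprime_iff_not_dvd hl).2 hd
  have hla : (l : ℤ) ∣ a := by
    rcases hab with h1 | h1
    · exact h1.1
    · exact (dvd_pow_self _ two_ne_zero).trans h1.1
  have hlb : (l : ℤ) ∣ b := by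
    rcases hab with h1 | h1
    · exact h1.2.1
    · exact (dvd_pow_self _ three_ne_zero).trans h1.2.1
  have hlB : (l : ℤ) ∣ B := by
    rw [h.hb] at hlb
    exact hcd.dvd_of_dvd_mul_left hlb
  by_cases hM : (l : ℤ) ∣ M
  · exfalso
    have hle : ¬ (l : ℤ) ∣ e := by
      intro he
      have h1 : (l : ℤ) ∣ d * M := hM.mul_left d
      have h2 := h.cop.isUnit_of_dvd' h1 he
      exact hl.not_isUnit h2
    have hce : IsCoprime (l : ℤ) e := (Prime.coprime_iff_not_dvd hl).2 hle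
    have hN : (l : ℤ) ∣ N := by
      refine hl.dvd_of_dvd_pow (n := 2) ?_
      rw [h.eq]
      refine dvd_add (dvd_add ?_ ?_) ?_
      · exact (hM.trans (dvd_pow_self M four_ne_zero)).mul_left d
      · exact (hla.mul_right (M ^ 2)).mul_right (e ^ 2)
      · exact hlB.mul_right (e ^ 4)
    obtain ⟨M', rfl⟩ := hM
    obtain ⟨N', rfl⟩ := hN
    have heq := h.eq
    rcases hab with ⟨h1, h2, h3⟩ | ⟨h1, h2, h3⟩
    · apply h3
      obtain ⟨a', rfl⟩ := h1
      have h4 : (l : ℤ) ^ 2 ∣ B * e ^ 4 := by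
        refine ⟨N' ^ 2 - d * l ^ 2 * M' ^ 4 - l * a' * M' ^ 2 * e ^ 2, ?_⟩
        linear_combination -heq
      have h5 : (l : ℤ) ^ 2 ∣ B := (hce.pow (m := 2) (n := 4)).dvd_of_dvd_mul_right h4
      rw [h.hb]
      exact h5.mul_left d
    · apply h3
      obtain ⟨a', rfl⟩ := h1
      have h4 : (l : ℤ) ^ 3 ∣ B := by
        rw [h.hb] at h2
        exact (hcd.pow_left (m := 3)).dvd_of_dvd_mul_left h2
      obtain ⟨B', rfl⟩ := h4
      have h5 : (l : ℤ) ∣ N' := by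
        refine hl.dvd_of_dvd_pow (n := 2) ?_
        refine ⟨d * l * M' ^ 4 + l * a' * M' ^ 2 * e ^ 2 + B' * e ^ 4, ?_⟩
        have h6 : (l : ℤ) ^ 2 ≠ 0 := pow_ne_zero _ hl.ne_zero
        refine mul_left_cancel₀ h6 ?_
        linear_combination heq
      obtain ⟨N'', rfl⟩ := h5
      have h7 : (l : ℤ) ∣ B' * e ^ 4 := by
        refine ⟨N'' ^ 2 - d * M' ^ 4 - a' * M' ^ 2 * e ^ 2, ?_⟩
        have h6 : (l : ℤ) ^ 3 ≠ 0 := pow_ne_zero _ hl.ne_zero
        refine mul_left_cancel₀ h6 ?_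
        linear_combination -heq
      have h8 : (l : ℤ) ∣ B' := (hce.pow_right (n := 4)).dvd_of_dvd_mul_right h7
      rw [h.hb]
      have h9 : (l : ℤ) ^ 4 = l ^ 3 * l := by ring
      rw [h9]
      exact (mul_dvd_mul_left _ h8).mul_left d
  · have hd0 : ((d : ℤ) : ZMod l) ≠ 0 := by
      rw [Ne, ZMod.intCast_zmod_eq_zero_iff_dvd]
      exact hd
    have hM0 : ((M : ℤ) : ZMod l) ≠ 0 := by
      rw [Ne, ZMod.intCast_zmod_eq_zero_iff_dvd]
      exact hM
    have ha0 : ((a : ℤ) : ZMod l) = 0 := (ZMod.intCast_zmod_eq_zero_iff_dvd a l).2 hla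
    have hB0 : ((B : ℤ) : ZMod l) = 0 := (ZMod.intCast_zmod_eq_zero_iff_dvd B l).2 hlB
    rw [legendreSym.eq_one_iff l hd0]
    have h1 : ((N : ℤ) : ZMod l) ^ 2 = (d : ZMod l) * (M : ZMod l) ^ 4 := by
      have := congrArg (fun x : ℤ => (x : ZMod l)) h.eq
      simp only [Int.cast_pow, Int.cast_add, Int.cast_mul, ha0, hB0, zero_mul, add_zero] at this
      exact this
    refine ⟨(N : ZMod l) / (M : ZMod l) ^ 2, ?_⟩
    rw [div_mul_div_comm, eq_div_iff (mul_ne_zero (pow_ne_zero 2 hM0) (pow_ne_zero 2 hM0))]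
    linear_combination -h1

end Pool.Agent.G02.H65
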