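import Pool.Agent.G02.Stmts

/-!
# Squad G02, row RLB: the symbols in recipe B
-/

set_option autoImplicit false

namespace Pool.Agent.G02.H65

theorem leg_congr (p : ℕ) [Fact p.Prime] {a b : ℤ} (h : (a : ZMod p) = (b : ZMod p)) :
    legendreSym p a = legendreSym p b := by
  unfold legendreSym
  rw [h]

theorem leg_zero (p : ℕ) [Fact p.Prime] {a : ℤ} (h : (p : ℤ) ∣ a) : legendreSym p a = 0 :=
  (legendreSym.eq_zero_iff p a).2 ((ZMod.intCast_zmod_eq_zero_iff_dvd a p).2 h)

theorem rlb : RlbStmt := by
  intro k p q r hp hq hr h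
  have hr' : r = p + 2 * q := by exact_mod_cast h.hr
  have hmp := h.mp
  have hmq := h.mq
  have hr8 : r % 8 = 5 := by omega
  have p2 : p ≠ 2 := by rintro rfl; omega
  have q2 : q ≠ 2 := by rintro rfl; omega
  have r2 : r ≠ 2 := by rintro rfl; omega
  have npq : p ≠ q := by rintro rfl; omega
  have npr : p ≠ r := by rintro rfl; omega
  have nqr : q ≠ r := by
    have := hp.out.pos
    omega
  have kp : ¬ (p : ℤ) ∣ k := by
    intro hk
    have h1 := (h.leg p p2 hk).1
    rw [leg_zero p (by
      rw [dvd_neg]
      exact (dvd_mul_left _ _).mul_right _)] at h1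
    exact absurd h1 (by norm_num)
  have kq : ¬ (q : ℤ) ∣ k := by
    intro hk
    have h1 := (h.leg q q2 hk).1
    rw [leg_zero q (by
      rw [dvd_neg]
      exact dvd_mul_left _ _)] at h1
    exact absurd h1 (by norm_num)
  have kr : ¬ (r : ℤ) ∣ k := by
    intro hk
    have h1 := (h.leg r r2 hk).2
    rw [leg_zero r (dvd_mul_left _ _)] at h1
    exact absurd h1 (by norm_num)
  have hpR : legendreSym p r = - legendreSym p q := by
    have h1 : legendreSym p r = legendreSym p (2 * q) := by
      apply leg_congr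
      rw [hr']
      push_cast
      simp
    have h2 : legendreSym p 2 = -1 := by
      rw [legendreSym.at_two p2, ZMod.χ₈_nat_eq_if_mod_eight, if_neg (by omega), if_neg (by omega)]
    rw [h1, legendreSym.mul, h2]
    ring
  have hqP : legendreSym q p = legendreSym p q :=
    (legendreSym.quadratic_reciprocity_one_mod_four (p := q) (q := p) (by omega) p2).symm
  have hqR : legendreSym q r = legendreSym q p := by
    apply leg_congr
    rw [hr']
    push_cast
    simp
  have hrP : legendreSym r p = legendreSym p r :=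
    (legendreSym.quadratic_reciprocity_one_mod_four (p := r) (q := p) (by omega) p2).symm
  have hrQ : legendreSym r q = legendreSym q r :=
    (legendreSym.quadratic_reciprocity_one_mod_four (p := r) (q := q) (by omega) q2).symm
  refine ⟨hr8, legendreSym p q, ?_⟩
  refine ⟨p2, q2, r2, npq, npr, nqr, kp, kq, kr, rfl, hpR, hqP, ?_, ?_, ?_, ?_⟩
  · rw [hqR, hqP]
  · rw [hrP, hpR]
  · rw [hrQ, hqR, hqP]
  · apply legendreSym.eq_one_or_neg_one
    rw [Ne, ZMod.intCast_zmod_eq_zero_iff_dvd]
    intro hh
    have h1 : p ∣ q := by exact_mod_cast hh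
    exact npq ((Nat.prime_dvd_prime_iff_eq hp.out hq.out).1 h1)

end Pool.Agent.G02.H65
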