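import Pool.Agent.G02.StmtsS

/-!
# Squad G02, row SPM: separation through a Moebius function
-/

set_option autoImplicit false

namespace Pool.Agent.G02.H65

open Polynomial Pool.Agent.NJ Pool.Agent.GT.F

theorem spm_large {k : ℚ} {p : ℕ} (h : k.num.natAbs + k.den < p) (hk : k ≠ 0) :
    padicValRat p k = 0 := by
  rw [padicValRat_def]
  have h1 : ¬ p ∣ k.num.natAbs := by
    intro hd
    have h2 := Nat.le_of_dvd (Int.natAbs_pos.2 (Rat.num_ne_zero.2 hk)) hd
    omega
  have h3 : ¬ p ∣ k.den := by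
    intro hd
    have h2 := Nat.le_of_dvd k.pos hd
    omega
  have e1 : padicValInt p k.num = 0 := padicValNat.eq_zero_of_not_dvd h1
  have e2 : padicValNat p k.den = 0 := padicValNat.eq_zero_of_not_dvd h3
  rw [e1, e2]
  simp

/-- One bound for the primes of finitely many rational numbers. -/
theorem spm_bound (S : Finset ℚ) (n : ℕ) : ∃ N : ℕ, n ≤ N ∧ ∀ p : ℕ, N < p → ∀ q ∈ S, q ≠ 0 →
    padicValRat p q = 0 := by
  refine ⟨n + ∑ q ∈ S, (q.num.natAbs + q.den), Nat.le_add_right _ _, ?_⟩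
  intro p hp q hq hq0
  refine spm_large ?_ hq0
  have h : q.num.natAbs + q.den ≤ ∑ q ∈ S, (q.num.natAbs + q.den) :=
    Finset.single_le_sum (f := fun q : ℚ => q.num.natAbs + q.den) (fun _ _ => Nat.zero_le _) hq
  omega

/-- The valuation of a sum with different valuations. -/
theorem spm_add {p : ℕ} [Fact p.Prime] {a b : ℚ} (ha : a ≠ 0)
    (hb : b = 0 ∨ padicValRat p a < padicValRat p b) : padicValRat p (a + b) = padicValRat p a := by
  rcases hb with rfl | hb
  · rw [add_zero]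
  · by_cases hb0 : b = 0
    · rw [hb0, add_zero]
    · refine padicValRat.add_eq_of_lt ?_ ha hb0 hb
      intro h
      have h1 : a = -b := eq_neg_of_add_eq_zero_left h
      rw [h1, padicValRat.neg] at hb
      exact lt_irrefl _ hb

/-- The valuation of `t - c`. -/
theorem spm_core {p : ℕ} [Fact p.Prime] {δ t c yt A M : ℚ} (hδ : δ ≠ 0)
    (hδp : padicValRat p δ = 0) (h1 : yt * A = δ * (t - c)) (h2 : yt * M = δ) (hA : A ≠ 0)
    (hv : padicValRat p A - padicValRat p M = 1) : padicValRat p (t - c) = 1 := by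
  have hyt : yt ≠ 0 := by
    rintro rfl
    rw [zero_mul] at h2
    exact hδ h2.symm
  have hM : M ≠ 0 := by
    rintro rfl
    rw [mul_zero] at h2
    exact hδ h2.symm
  have htc : t - c ≠ 0 := by
    intro h
    rw [h, mul_zero] at h1
    exact (mul_ne_zero hyt hA) h1
  have h3 : padicValRat p yt + padicValRat p M = 0 := by
    rw [← padicValRat.mul hyt hM, h2, hδp]
  have h4 : padicValRat p yt + padicValRat p A = padicValRat p (t - c) := by
    rw [← padicValRat.mul hyt hA, h1, padicValRat.mul hδ htc, hδp, zero_add]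
  linarith

/-- SPM. -/
theorem spm : SpmStmt := by
  intro x y hl hw B hB n
  obtain ⟨x1, x0, hx⟩ := exists_eq_X_add_C_of_natDegree_le_one hl.dx
  obtain ⟨y1, y0, hy⟩ := exists_eq_X_add_C_of_natDegree_le_one hl.dy
  have hxe : ∀ s : ℚ, x.eval s = x1 * s + x0 := by
    intro s
    rw [hx]
    simp
  have hye : ∀ s : ℚ, y.eval s = y1 * s + y0 := by
    intro s
    rw [hy]
    simp
  have hcop : ∀ s : ℚ, x.eval s = 0 → y.eval s = 0 → False := by
    intro s h1 h2
    obtain ⟨a, b, hab⟩ := hl.cop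
    have h3 := congrArg (eval s) hab
    rw [eval_add, eval_mul, eval_mul, h1, h2, mul_zero, mul_zero, add_zero, eval_one] at h3
    exact zero_ne_one h3
  have hnc : ¬ (x1 = 0 ∧ y1 = 0) := by
    rintro ⟨h1, h2⟩
    apply hl.nc
    rw [hx, hy, h1, h2]
    simp
  have hδ : x1 * y0 - x0 * y1 ≠ 0 := by
    intro h
    by_cases h1 : y1 = 0
    · have h2 : x1 ≠ 0 := fun h2 => hnc ⟨h2, h1⟩
      refine hcop (-x0 / x1) ?_ ?_
      · rw [hxe]
        field_simp
        ring
      · rw [hye, h1, zero_mul, zero_add]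
        rw [h1, mul_zero, sub_zero] at h
        exact (mul_eq_zero.1 h).resolve_left h2
    · refine hcop (-y0 / y1) ?_ ?_
      · rw [hxe]
        field_simp
        linear_combination -h
      · rw [hye]
        field_simp
        ring
  obtain ⟨N, hN1, hN2⟩ := spm_bound ({x1, y1, x1 * y0 - x0 * y1, x1 - 4 * y1} ∪
    B.image (fun c => x.eval c) ∪ B.image (fun c => y.eval c) ∪
    (B ×ˢ B).image (fun c => c.1 - c.2)) n
  refine ⟨N, ?_⟩
  intro τ t hS hyt hxt
  obtain ⟨⟨p₁, hp₁, hn₁, hv₁⟩, ⟨p₂, hp₂, hn₂, hv₂⟩, ⟨p₃, hp₃, hn₃, hv₃⟩⟩ := hS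
  have e1 : ∀ c : ℚ, y.eval t * (τ * y.eval c - x.eval c) = (x1 * y0 - x0 * y1) * (t - c) := by
    intro c
    have h1 := hxt
    rw [hxe, hye] at h1
    rw [hye, hye, hxe]
    linear_combination (-(y1 * c + y0)) * h1
  have e2 : y.eval t * (x1 - τ * y1) = x1 * y0 - x0 * y1 := by
    have h1 := hxt
    rw [hxe, hye] at h1
    rw [hye]
    linear_combination y1 * h1
  have hx1 : ∀ p : ℕ, N < p → x1 ≠ 0 → padicValRat p x1 = 0 := fun p hp h =>
    hN2 p hp x1 (by simp) h
  have hy1 : ∀ p : ℕ, N < p → y1 ≠ 0 → padicValRat p y1 = 0 := fun p hp h =>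
    hN2 p hp y1 (by simp) h
  have hδ1 : ∀ p : ℕ, N < p → padicValRat p (x1 * y0 - x0 * y1) = 0 := fun p hp =>
    hN2 p hp _ (by simp) hδ
  have hw1 : ∀ p : ℕ, N < p → x1 - 4 * y1 ≠ 0 → padicValRat p (x1 - 4 * y1) = 0 := fun p hp h =>
    hN2 p hp _ (by simp) h
  have hxc : ∀ p : ℕ, N < p → ∀ c ∈ B, x.eval c ≠ 0 → padicValRat p (x.eval c) = 0 :=
    fun p hp c hc h => hN2 p hp _ (by
      simp only [Finset.mem_union, Finset.mem_image]
      exact Or.inl (Or.inl (Or.inr ⟨c, hc, rfl⟩))) h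
  have hyc : ∀ p : ℕ, N < p → ∀ c ∈ B, y.eval c ≠ 0 → padicValRat p (y.eval c) = 0 :=
    fun p hp c hc h => hN2 p hp _ (by
      simp only [Finset.mem_union, Finset.mem_image]
      exact Or.inl (Or.inr ⟨c, hc, rfl⟩)) h
  have hcc : ∀ p : ℕ, N < p → ∀ c ∈ B, ∀ c' ∈ B, c' ≠ c → padicValRat p (c - c') = 0 :=
    fun p hp c hc c' hc' h => hN2 p hp _ (by
      simp only [Finset.mem_union, Finset.mem_image]
      exact Or.inr ⟨(c, c'), Finset.mem_product.2 ⟨hc, hc'⟩, rfl⟩) (sub_ne_zero.2 h.symm)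
  have fin : ∀ p : ℕ, p.Prime → N < p → ∀ c ∈ B, padicValRat p (t - c) = 1 →
      ∃ p : ℕ, p.Prime ∧ n < p ∧ Odd (padicValRat p (t - c)) ∧
        ∀ c' ∈ B, c' ≠ c → padicValRat p (t - c') = 0 := by
    intro p hp hn c hc hv
    have _ : Fact p.Prime := ⟨hp⟩
    refine ⟨p, hp, lt_of_le_of_lt hN1 hn, by rw [hv]; exact odd_one, ?_⟩
    intro c' hc' hne
    have h1 := hcc p hn c hc c' hc' hne
    have h2 : t - c' = (c - c') + (t - c) := by ring
    rw [h2, spm_add (sub_ne_zero.2 hne.symm) (Or.inr (by rw [h1, hv]; norm_num)), h1]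
  intro c hc
  have h0 := (hB c).1 hc
  rw [eval_mul, eval_mul, mul_eq_zero, mul_eq_zero] at h0
  rcases h0 with (hxc0 | hyc0) | hwc0
  · -- x(c) = 0
    have _ : Fact p₁.Prime := ⟨hp₁⟩
    have hyc1 : y.eval c ≠ 0 := fun h => hcop c hxc0 h
    have hx10 : x1 ≠ 0 := by
      intro h
      have h2 := hxc0
      rw [hxe, h, zero_mul, zero_add] at h2
      apply hl.x0
      rw [hx, h, h2]
      simp
    have hτ : τ ≠ 0 := by
      rintro rfl
      rw [padicValRat.zero] at hv₁
      norm_num at hv₁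
    refine fin p₁ hp₁ hn₁ c hc (spm_core hδ (hδ1 p₁ hn₁) (e1 c) e2 ?_ ?_)
    · rw [hxc0, sub_zero]
      exact mul_ne_zero hτ hyc1
    · rw [hxc0, sub_zero, padicValRat.mul hτ hyc1, hv₁, hyc p₁ hn₁ c hc hyc1, sub_eq_add_neg x1,
        spm_add hx10, hx1 p₁ hn₁ hx10]
      · norm_num
      · by_cases h1 : y1 = 0
        · left
          rw [h1, mul_zero, neg_zero]
        · right
          rw [padicValRat.neg, padicValRat.mul hτ h1, hv₁, hy1 p₁ hn₁ h1, hx1 p₁ hn₁ hx10]
          norm_num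
  · -- y(c) = 0
    have _ : Fact p₃.Prime := ⟨hp₃⟩
    have hxc1 : x.eval c ≠ 0 := fun h => hcop c h hyc0
    have hy10 : y1 ≠ 0 := by
      intro h
      have h2 := hyc0
      rw [hye, h, zero_mul, zero_add] at h2
      apply hl.y0
      rw [hy, h, h2]
      simp
    have hτ : τ ≠ 0 := by
      rintro rfl
      rw [padicValRat.zero] at hv₃
      norm_num at hv₃
    refine fin p₃ hp₃ hn₃ c hc (spm_core hδ (hδ1 p₃ hn₃) (e1 c) e2 ?_ ?_)
    · rw [hyc0, mul_zero, zero_sub]
      exact neg_ne_zero.2 hxc1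
    · have h3 : x1 - τ * y1 = -(τ * y1) + x1 := by ring
      rw [hyc0, mul_zero, zero_sub, padicValRat.neg, hxc p₃ hn₃ c hc hxc1, h3,
        spm_add (neg_ne_zero.2 (mul_ne_zero hτ hy10)), padicValRat.neg,
        padicValRat.mul hτ hy10, hv₃, hy1 p₃ hn₃ hy10]
      · norm_num
      · by_cases h1 : x1 = 0
        · left
          exact h1
        · right
          rw [padicValRat.neg, padicValRat.mul hτ hy10, hv₃, hy1 p₃ hn₃ hy10, hx1 p₃ hn₃ h1]
          norm_num
  · -- w(c) = 0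
    have _ : Fact p₂.Prime := ⟨hp₂⟩
    have hwc1 : x.eval c = 4 * y.eval c := by
      have h1 := hwc0
      rw [eval_sub, eval_mul] at h1
      have h2 : (4 : ℚ[X]).eval c = 4 := by
        have : (4 : ℚ[X]) = C 4 := (map_ofNat (C : ℚ →+* ℚ[X]) 4).symm
        rw [this, eval_C]
      rw [h2] at h1
      linear_combination h1
    have hyc1 : y.eval c ≠ 0 := by
      intro h
      exact hcop c (by rw [hwc1, h, mul_zero]) h
    have hw10 : x1 - 4 * y1 ≠ 0 := by
      intro h
      apply hw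
      have h2 := hwc1
      rw [hxe, hye] at h2
      have h3 : x1 = 4 * y1 := by linear_combination h
      have h4 : x0 = 4 * y0 := by
        rw [h3] at h2
        linear_combination h2
      rw [hx, hy, h3, h4]
      simp only [C_mul]
      have : (4 : ℚ[X]) = C 4 := (map_ofNat (C : ℚ →+* ℚ[X]) 4).symm
      rw [this]
      ring
    have hτ : τ - 4 ≠ 0 := by
      intro h
      rw [h, padicValRat.zero] at hv₂
      norm_num at hv₂
    have h5 : τ * y.eval c - x.eval c = (τ - 4) * y.eval c := by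
      rw [hwc1]
      ring
    refine fin p₂ hp₂ hn₂ c hc (spm_core hδ (hδ1 p₂ hn₂) (e1 c) e2 ?_ ?_)
    · rw [h5]
      exact mul_ne_zero hτ hyc1
    · have h3 : x1 - τ * y1 = (x1 - 4 * y1) + -((τ - 4) * y1) := by ring
      rw [h5, padicValRat.mul hτ hyc1, hv₂, hyc p₂ hn₂ c hc hyc1, h3,
        spm_add hw10, hw1 p₂ hn₂ hw10]
      · norm_num
      · by_cases h1 : y1 = 0
        · left
          rw [h1, mul_zero, neg_zero]
        · right
          rw [padicValRat.neg, padicValRat.mul hτ h1, hv₂, hy1 p₂ hn₂ h1, hw1 p₂ hn₂ hw10]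
          norm_num

end Pool.Agent.G02.H65
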