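import Pool.Agent.G02.StmtsR

/-!
# Squad G02, row SQE: squares at `t`
-/

set_option autoImplicit false

namespace Pool.Agent.G02.H65

open Polynomial Pool.Agent.NJ Pool.Agent.GT.F

theorem sqe_large {k : ℚ} {p : ℕ} (h : k.num.natAbs + k.den < p) (hk : k ≠ 0) :
    padicValRat p k = 0 := by
  rw [padicValRat_def]
  have h1 : ¬ p ∣ k.num.natAbs := by
    intro hd
    have h2 := Nat.le_of_dvd (Int.natAbs_pos.2 (Rat.num_ne_zero.2 hk)) hd
    omega
  have h3 : ¬ p ∣ k.den := by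
    intro hd
    have h2 := Nat.le_of_dvd k.pos hd
    omega
  have e1 : padicValInt p k.num = 0 := padicValNat.eq_zero_of_not_dvd h1
  have e2 : padicValNat p k.den = 0 := padicValNat.eq_zero_of_not_dvd h3
  rw [e1, e2]
  simp

theorem sqe_prod {p : ℕ} [Fact p.Prime] (f : ℚ → ℚ) : ∀ (R : Finset ℚ), (∀ c ∈ R, f c ≠ 0) →
    padicValRat p (∏ c ∈ R, f c) = ∑ c ∈ R, padicValRat p (f c) := by
  intro R
  induction R using Finset.induction_on with
  | empty => intro _; simp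
  | insert a R ha ih =>
    intro h
    rw [Finset.prod_insert ha, Finset.sum_insert ha, padicValRat.mul (h a (by simp))
      (Finset.prod_ne_zero_iff.2 fun c hc => h c (by simp [hc])), ih fun c hc => h c (by simp [hc])]

/-- SQE. -/
theorem sqe (hEvl : EvlStmt) : SqeStmt := by
  intro B f k R hf hk hRB hsq hns
  obtain ⟨hE1, hE2, -, hE4⟩ := hEvl
  obtain ⟨g, hg⟩ := hsq
  obtain ⟨Z3, hZ3⟩ := hE4 f
  obtain ⟨Z4, hZ4⟩ := hE4 g
  refine ⟨k.num.natAbs + k.den, Z3 ∪ Z4 ∪ B, ?_⟩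
  intro t ht hsep
  simp only [Finset.mem_union, not_or] at ht
  obtain ⟨⟨ht3, ht4⟩, htB⟩ := ht
  obtain ⟨hf1, hf2⟩ := hZ3 t ht3
  obtain ⟨hg1, -⟩ := hZ4 t ht4
  have hft := hf2 hf
  refine ⟨hf1, ?_⟩
  rintro ⟨r, hr⟩
  have hpt : (C k * ∏ c ∈ R, (X - C c) : ℚ[X]).eval t = k * ∏ c ∈ R, (t - c) := by
    rw [eval_mul, eval_C, eval_prod]
    simp
  have htR : ∀ c ∈ R, t - c ≠ 0 := by
    intro c hc h
    exact htB (sub_eq_zero.1 h ▸ hRB hc)
  have hpt0 : k * ∏ c ∈ R, (t - c) ≠ 0 :=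
    mul_ne_zero hk (Finset.prod_ne_zero_iff.2 htR)
  have hr0 : r ≠ 0 := by
    rintro rfl
    rw [mul_zero] at hr
    exact hft hr
  have hs2 : IsSquare (k * ∏ c ∈ R, (t - c)) := by
    obtain ⟨-, -, -, -, h1, h2⟩ := hE1 t g g hg1 hg1
    obtain ⟨h3, h4⟩ := hE2 t (C k * ∏ c ∈ R, (X - C c))
    obtain ⟨-, -, -, -, h5, h6⟩ := hE1 t _ f h3 hf1
    have h7 : ev t (pr k R * f) = ev t g * ev t g := by
      rw [hg, h2]
    have h8 : ev t (pr k R * f) = (k * ∏ c ∈ R, (t - c)) * ev t f := by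
      rw [← hpt, ← h4]
      exact h6
    refine ⟨ev t g / r, ?_⟩
    rw [h8, hr] at h7
    field_simp
    linear_combination h7
  rcases R.eq_empty_or_nonempty with hRe | ⟨c₀, hc₀⟩
  · apply hns
    rw [hRe, Finset.prod_empty, mul_one] at hs2
    obtain ⟨s, hs⟩ := hs2
    have hs0 : s ≠ 0 := by
      rintro rfl
      rw [mul_zero] at hs
      exact hk hs
    have hpr : pr k R = algebraMap ℚ[X] (RatFunc ℚ) (C s) * algebraMap ℚ[X] (RatFunc ℚ) (C s) := by
      unfold pr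
      rw [hRe, Finset.prod_empty, mul_one, ← map_mul, ← C_mul, hs]
    have hs1 : algebraMap ℚ[X] (RatFunc ℚ) (C s) ≠ 0 :=
      (map_ne_zero_iff _ (IsFractionRing.injective ℚ[X] (RatFunc ℚ))).2 (C_ne_zero.2 hs0)
    refine ⟨g / algebraMap ℚ[X] (RatFunc ℚ) (C s), ?_⟩
    rw [hpr] at hg
    field_simp
    linear_combination hg
  · obtain ⟨q, hq, hqn, hodd, hoth⟩ := hsep c₀ (hRB hc₀)
    have hF : Fact q.Prime := ⟨hq⟩
    have hv : padicValRat q (k * ∏ c ∈ R, (t - c)) = padicValRat q (t - c₀) := by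
      rw [padicValRat.mul hk (Finset.prod_ne_zero_iff.2 htR), sqe_large hqn hk,
        sqe_prod (fun c => t - c) R htR, zero_add,
        Finset.sum_eq_single_of_mem c₀ hc₀ fun c hc hne => hoth c (hRB hc) hne]
    obtain ⟨s, hs⟩ := hs2
    have hs0 : s ≠ 0 := by
      rintro rfl
      rw [mul_zero] at hs
      exact hpt0 hs
    rw [hs, padicValRat.mul hs0 hs0] at hv
    rw [← hv] at hodd
    exact (Int.not_odd_iff_even.2 ⟨_, rfl⟩) hodd

end Pool.Agent.G02.H65
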